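import Mathlib

/-!
# Translation KM-arcs from inequivalent clubs are inequivalent

`K` is a finite field with `2 ^ n` elements. The plane is `PG(2, 2 ^ n) = ℙ K ((K × K) × K)`, and the
line `ℓ : X₂ = 0` consists of the points `⟨(x, 0)⟩`, `x ∈ K × K`.
-/

set_option autoImplicit false
open scoped LinearAlgebra.Projectivization

namespace Pool.Agent.Results.MP_5fce70_co.ClubsToArcs

variable {K : Type} [Field K]

/-- The linear set `L_U = {⟨u⟩ : u ∈ U, u ≠ 0}` of an additive subgroup (`𝔽₂`-subspace) `U`. -/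
def linSet {V : Type} [AddCommGroup V] [Module K V] (U : AddSubgroup V) : Set (ℙ K V) :=
  {P | ∃ u ∈ U, u ≠ 0 ∧ u ∈ P.submodule}

/-- The point `P` has weight `i` in `L_U`: `U ∩ P` has `𝔽₂`-dimension `i`, i.e. `2 ^ i` elements. -/
def HasWeight {V : Type} [AddCommGroup V] [Module K V] (U : AddSubgroup V) (P : ℙ K V) (i : ℕ) :
    Prop :=
  Nat.card {u : V // u ∈ U ∧ u ∈ P.submodule} = 2 ^ i

/-- `L_U ⊆ PG(1, 2 ^ n)` is an `i`-club: `U` has rank `n` (i.e. `2 ^ n = |K|` elements), exactly one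
point (a point of `L_U`) has weight `i`, and every other point of `L_U` has weight `1`. -/
structure IsClub (U : AddSubgroup (K × K)) (i : ℕ) : Prop where
  rank : Nat.card U = Nat.card K
  mem : ∃ P ∈ linSet (K := K) U, HasWeight U P i
  unique : ∀ P Q : ℙ K (K × K), HasWeight U P i → HasWeight U Q i → P = Q
  other : ∀ P ∈ linSet (K := K) U, ¬ HasWeight U P i → HasWeight U P 1

/-- The line `ℓ : X₂ = 0` of `PG(2, 2 ^ n)`. -/
def line : Set (ℙ K ((K × K) × K)) := {P | ∀ x ∈ P.submodule, x.2 = 0}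

/-- The point set `𝒜(U, v) = (L_{U'} ∖ ℓ) ∪ (ℓ ∖ L_U)`, where `U' = U ⊕ ⟨v⟩`; `U ⊆ K × K` is
regarded as the subgroup `U × 0` of `{X₂ = 0}`. -/
def arc (U : AddSubgroup (K × K)) (v : (K × K) × K) : Set (ℙ K ((K × K) × K)) :=
  (linSet (U.prod ⊥ ⊔ AddSubgroup.zmultiples v) \ line) ∪ (line \ linSet (U.prod ⊥))

/-- `U₁` and `U₂` are `ΓL(2, 2 ^ n)`-equivalent: a bijective semilinear map of `K × K` maps `U₁` onto
`U₂`. -/
def GammaLEquiv (U₁ U₂ : AddSubgroup (K × K)) : Prop :=
  ∃ (σ : K ≃+* K) (g : (K × K) ≃+ (K × K)), (∀ (c : K) (x : K × K), g (c • x) = σ c • g x) ∧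
    ∀ x, x ∈ U₁ ↔ g x ∈ U₂

/-- The point sets `A₁`, `A₂` of `PG(2, 2 ^ n)` are `PΓL(3, 2 ^ n)`-equivalent: the collineation
given by a bijective semilinear map `f` of `K³` maps `A₁` onto `A₂`. -/
def PGammaLEquiv (A₁ A₂ : Set (ℙ K ((K × K) × K))) : Prop :=
  ∃ (σ : K ≃+* K) (f : ((K × K) × K) ≃+ ((K × K) × K)),
    (∀ (c : K) (x : (K × K) × K), f (c • x) = σ c • f x) ∧
    ∀ (x : (K × K) × K) (hx : x ≠ 0), Projectivization.mk K x hx ∈ A₁ ↔
      Projectivization.mk K (f x) ((map_ne_zero_iff f f.injective).2 hx) ∈ A₂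

/-- vector version of the arc -/
def InA (U : AddSubgroup (K × K)) (v x : (K × K) × K) : Prop :=
  (x.2 ≠ 0 ∧ (v.2 / x.2) • x.1 - v.1 ∈ U) ∨ (x.2 = 0 ∧ ∀ c : K, c • x.1 ∈ U → c = 0)

theorem mem_arc [CharP K 2] (U : AddSubgroup (K × K)) (v x : (K × K) × K) (hv : v.2 ≠ 0) (hx : x ≠ 0) :
    Projectivization.mk K x hx ∈ arc U v ↔ InA U v x := by
  have hsub : (Projectivization.mk K x hx).submodule = Submodule.span K {x} :=
    Projectivization.submodule_mk _ _
  have hline : Projectivization.mk K x hx ∈ (line : Set (ℙ K ((K × K) × K))) ↔ x.2 = 0 := by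
    constructor
    · intro h
      exact h x (by rw [hsub]; exact Submodule.mem_span_singleton_self x)
    · intro h y hy
      rw [hsub, Submodule.mem_span_singleton] at hy
      obtain ⟨c, rfl⟩ := hy
      simp [h]
  unfold arc InA
  rw [Set.mem_union, Set.mem_sdiff, Set.mem_sdiff, hline]
  refine or_congr ?_ ?_
  · rw [and_comm]
    refine and_congr_right fun hx2 => ?_
    constructor
    · rintro ⟨u', hu', hu0, hux⟩
      rw [hsub, Submodule.mem_span_singleton] at hux
      obtain ⟨c, rfl⟩ := hux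
      rw [AddSubgroup.mem_sup] at hu'
      obtain ⟨y, hy, z, hz, hyz⟩ := hu'
      rw [AddSubgroup.mem_prod] at hy
      obtain ⟨hy1, hy2⟩ := hy
      rw [AddSubgroup.mem_bot] at hy2
      rw [AddSubgroup.mem_zmultiples_iff] at hz
      obtain ⟨n, rfl⟩ := hz
      have h2 : ∀ x : (K × K) × K, (2 : ℤ) • x = 0 := by
        intro x
        have h2' : (2 : K) = 0 := CharP.cast_eq_zero K 2
        have : (2 : ℤ) • x = (2 : K) • x := by
          rw [two_smul, two_smul]
        rw [this, h2', zero_smul]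
      have hn : n • v = 0 ∨ n • v = v := by
        rcases Int.even_or_odd' n with ⟨m, hm | hm⟩
        · left; rw [hm, mul_comm, mul_smul, h2, smul_zero]
        · right; rw [hm, add_smul, mul_comm, mul_smul, h2, smul_zero, one_smul, zero_add]
      have hn' : n • v = v := by
        rcases hn with h | h
        · exfalso
          rw [h, add_zero] at hyz
          have : c * x.2 = 0 := by
            have := congrArg Prod.snd hyz
            rw [hy2] at this
            simpa using this.symm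
          rcases mul_eq_zero.1 this with h | h
          · exact hu0 (by rw [h, zero_smul])
          · exact hx2 h
        · exact h
      rw [hn'] at hyz
      have e1 : y.1 + v.1 = c • x.1 := congrArg Prod.fst hyz
      have e2 : y.2 + v.2 = c * x.2 := congrArg Prod.snd hyz
      rw [hy2, zero_add] at e2
      have e3 : v.2 / x.2 = c := by rw [e2]; field_simp
      rw [e3, ← e1]
      simpa using hy1
    · intro h
      refine ⟨(v.2 / x.2) • x, ?_, ?_, ?_⟩
      · rw [AddSubgroup.mem_sup]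
        refine ⟨((v.2 / x.2) • x.1 - v.1, 0), ?_, v, AddSubgroup.mem_zmultiples v, ?_⟩
        · rw [AddSubgroup.mem_prod]; exact ⟨h, AddSubgroup.mem_bot.2 rfl⟩
        · refine Prod.ext (by simp) ?_
          simp; field_simp
      · intro h0
        have := congrArg Prod.snd h0
        simp at this
        tauto
      · rw [hsub, Submodule.mem_span_singleton]; exact ⟨_, rfl⟩
  · refine and_congr_right fun hx2 => ?_
    constructor
    · intro h c hc
      by_contra hc0
      refine h ⟨c • x, ?_, ?_, ?_⟩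
      · rw [AddSubgroup.mem_prod]; refine ⟨hc, ?_⟩
        rw [AddSubgroup.mem_bot]; simp [hx2]
      · exact smul_ne_zero hc0 hx
      · rw [hsub, Submodule.mem_span_singleton]; exact ⟨_, rfl⟩
    · rintro h ⟨u', hu', hu0, hux⟩
      rw [hsub, Submodule.mem_span_singleton] at hux
      obtain ⟨c, rfl⟩ := hux
      rw [AddSubgroup.mem_prod] at hu'
      have := h c hu'.1
      exact hu0 (by rw [this, zero_smul])


/-- semilinear maps matching the arcs -/
structure Good (U₁ : AddSubgroup (K × K)) (v₁ : (K × K) × K) (U₂ : AddSubgroup (K × K))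
    (v₂ : (K × K) × K) (σ : K ≃+* K) (f : ((K × K) × K) ≃+ ((K × K) × K)) : Prop where
  semi : ∀ (c : K) (x : (K × K) × K), f (c • x) = σ c • f x
  arc : ∀ x, x ≠ 0 → (InA U₁ v₁ x ↔ InA U₂ v₂ (f x))

theorem Good.symm {U₁ U₂ : AddSubgroup (K × K)} {v₁ v₂ : (K × K) × K} {σ : K ≃+* K}
    {f : ((K × K) × K) ≃+ ((K × K) × K)} (h : Good U₁ v₁ U₂ v₂ σ f) :
    Good U₂ v₂ U₁ v₁ σ.symm f.symm where
  semi c x := by
    apply f.injective
    rw [h.semi]; simp
  arc x hx := by
    rw [h.arc (f.symm x) (by simpa using hx)]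
    simp

theorem Good.trans {U₁ U₂ U₃ : AddSubgroup (K × K)} {v₁ v₂ v₃ : (K × K) × K} {σ τ : K ≃+* K}
    {f g : ((K × K) × K) ≃+ ((K × K) × K)} (h : Good U₁ v₁ U₂ v₂ σ f) (h' : Good U₂ v₂ U₃ v₃ τ g) :
    Good U₁ v₁ U₃ v₃ (σ.trans τ) (f.trans g) where
  semi c x := by simp [h.semi, h'.semi]
  arc x hx := by
    rw [h.arc x hx, h'.arc (f x) (by simpa using hx)]
    simp

/-- translations -/
def trl (v : (K × K) × K) (u : K × K) : ((K × K) × K) ≃+ ((K × K) × K) where
  toFun x := (x.1 + (x.2 / v.2) • u, x.2)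
  invFun x := (x.1 - (x.2 / v.2) • u, x.2)
  left_inv x := by simp
  right_inv x := by simp
  map_add' x y := by
    refine Prod.ext ?_ rfl
    simp only [Prod.fst_add, Prod.snd_add, add_div, add_smul]
    abel

theorem good_trl (U : AddSubgroup (K × K)) (v : (K × K) × K) (hv : v.2 ≠ 0) (u : K × K)
    (hu : u ∈ U) : Good U v U v (RingEquiv.refl K) (trl v u) where
  semi c x := by
    refine Prod.ext ?_ rfl
    change (c • x).1 + ((c • x).2 / v.2) • u = c • (x.1 + (x.2 / v.2) • u)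
    rw [smul_add, smul_smul, Prod.smul_fst, Prod.smul_snd, smul_eq_mul, mul_div_assoc]
  arc x hx := by
    unfold InA trl
    simp only [AddEquiv.coe_mk, Equiv.coe_fn_mk]
    refine or_congr ?_ ?_
    · refine and_congr_right fun hx2 => ?_
      have : (v.2 / x.2) • (x.1 + (x.2 / v.2) • u) - v.1 = ((v.2 / x.2) • x.1 - v.1) + u := by
        rw [smul_add, smul_smul]
        have : v.2 / x.2 * (x.2 / v.2) = 1 := by field_simp
        rw [this, one_smul]; abel
      rw [this]
      exact (U.add_mem_cancel_right hu).symm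
    · refine and_congr_right fun hx2 => ?_
      rw [hx2]; simp

/-- if the line is preserved -/
theorem lemA [Finite K] {U₁ U₂ : AddSubgroup (K × K)} {v₁ v₂ : (K × K) × K} {σ : K ≃+* K}
    {f : ((K × K) × K) ≃+ ((K × K) × K)} (h : Good U₁ v₁ U₂ v₂ σ f) (hv₁ : v₁.2 ≠ 0)
    (hv₂ : v₂.2 ≠ 0) (hc : Nat.card U₁ = Nat.card U₂)
    (hH : ∀ x : K × K, (f (x, 0)).2 = 0) : GammaLEquiv U₁ U₂ := by
  set c₀ : K := (f (0, 1)).2 with hc₀
  have h2 : ∀ x, (f x).2 = σ x.2 * c₀ := by
    intro x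
    have hx : x = (x.1, 0) + x.2 • ((0 : K × K), (1 : K)) := by
      refine Prod.ext ?_ ?_ <;> simp
    conv_lhs => rw [hx, map_add, h.semi]
    simp [hH, hc₀]
  have hc0 : c₀ ≠ 0 := by
    intro h0
    have := h2 (f.symm (0, 1))
    rw [h0] at this
    simp at this
  set l : K := σ v₁.2 * c₀ / v₂.2 with hl
  have hσ : σ v₁.2 ≠ 0 := by simpa using hv₁
  have hl0 : l ≠ 0 := by rw [hl]; positivity
  have key : ∀ u ∈ U₁, l⁻¹ • (f ((u, 0) + v₁)).1 - v₂.1 ∈ U₂ := by
    intro u hu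
    have h1 : InA U₁ v₁ ((u, 0) + v₁) := by
      left
      refine ⟨by simpa using hv₁, ?_⟩
      simp [div_self hv₁, hu]
    have h3 : ((u, 0) + v₁ : (K × K) × K) ≠ 0 := by
      intro h0; exact hv₁ (by simpa using congrArg Prod.snd h0)
    rw [h.arc _ h3] at h1
    have h4 : (f ((u, 0) + v₁)).2 = σ v₁.2 * c₀ := by rw [h2]; simp
    rcases h1 with h1 | h1
    · have h5 := h1.2
      rw [h4] at h5
      have : v₂.2 / (σ v₁.2 * c₀) = l⁻¹ := by rw [hl, inv_div]
      rwa [this] at h5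
    · exfalso
      rw [h4] at h1
      exact mul_ne_zero hσ hc0 h1.1
  have key2 : ∀ u ∈ U₁, l⁻¹ • (f (u, 0)).1 ∈ U₂ := by
    intro u hu
    have := U₂.sub_mem (key u hu) (key 0 U₁.zero_mem)
    have e : l⁻¹ • (f (u, 0)).1 = l⁻¹ • (f ((u, 0) + v₁)).1 - v₂.1 -
        (l⁻¹ • (f (((0 : K × K), 0) + v₁)).1 - v₂.1) := by
      have : (((0 : K × K), (0 : K)) : (K × K) × K) = 0 := rfl
      rw [this, zero_add, map_add, Prod.fst_add, smul_add]; abel
    rw [e]; exact this
  let g₀ : (K × K) →+ (K × K) :=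
    { toFun := fun w => l⁻¹ • (f (w, 0)).1
      map_zero' := by
        have : (((0 : K × K), (0 : K)) : (K × K) × K) = 0 := rfl
        rw [this]; simp
      map_add' := by
        intro x y
        have : ((x + y, (0 : K)) : (K × K) × K) = (x, 0) + (y, 0) := by
          refine Prod.ext rfl ?_; simp
        rw [this, map_add, Prod.fst_add, smul_add] }
  have hg₀ : Function.Injective g₀ := by
    rw [injective_iff_map_eq_zero]
    intro w hw
    have h3 : (f (w, 0)).1 = 0 := by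
      have : l⁻¹ • (f (w, 0)).1 = 0 := hw
      rcases smul_eq_zero.1 this with h | h
      · exact absurd h (inv_ne_zero hl0)
      · exact h
    have h4 : f (w, 0) = 0 := Prod.ext h3 (hH w)
    have h5 : ((w, (0 : K)) : (K × K) × K) = 0 := by simpa using h4
    exact congrArg Prod.fst h5
  have hgb : Function.Bijective g₀ := Finite.injective_iff_bijective.1 hg₀
  let g : (K × K) ≃+ (K × K) := AddEquiv.ofBijective g₀ hgb
  have himg : g₀ '' (U₁ : Set (K × K)) = U₂ := by
    refine Set.eq_of_subset_of_ncard_le ?_ ?_ (Set.toFinite _)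
    · rintro _ ⟨u, hu, rfl⟩
      exact key2 u hu
    · rw [Set.ncard_image_of_injective _ hg₀]
      exact hc.symm.le
  refine ⟨σ, g, ?_, ?_⟩
  · intro c x
    change l⁻¹ • (f (c • x, 0)).1 = σ c • (l⁻¹ • (f (x, 0)).1)
    have : ((c • x, (0 : K)) : (K × K) × K) = c • (x, 0) := by refine Prod.ext rfl ?_; simp
    rw [this, h.semi, Prod.smul_fst, smul_comm]
  · intro x
    change x ∈ U₁ ↔ g₀ x ∈ U₂
    constructor
    · exact key2 x
    · intro hx
      have : g₀ x ∈ g₀ '' (U₁ : Set (K × K)) := by rw [himg]; exact hx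
      obtain ⟨y, hy, hyx⟩ := this
      rw [← hg₀ hyx]; exact hy

theorem GammaLEquiv.symm {U₁ U₂ : AddSubgroup (K × K)} (h : GammaLEquiv U₁ U₂) :
    GammaLEquiv U₂ U₁ := by
  obtain ⟨σ, g, h1, h2⟩ := h
  refine ⟨σ.symm, g.symm, ?_, ?_⟩
  · intro c x
    apply g.injective
    rw [h1]; simp
  · intro x
    rw [h2]; simp


/-- if three points of the arc are on a line, the line passes through the head of the club (or it is
the line `X₂ = 0`, which does too). -/
theorem lemB {U : AddSubgroup (K × K)} {v : (K × K) × K} (hv : v.2 ≠ 0) {w : K × K}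
    (hw : ∀ q ∈ U, q ≠ 0 → ∀ c : K, c • q ∈ U → c = 0 ∨ c = 1 ∨ ∃ e : K, q = e • w)
    {p d : (K × K) × K} (hpd : ∀ a b : K, a • p + b • d = 0 → a = 0 ∧ b = 0) {β : K}
    (hβ0 : β ≠ 0) (hβ1 : β ≠ 1) (h1 : InA U v p) (h2 : InA U v (p + d))
    (h3 : InA U v (p + β • d)) : ∃ a b : K, (w, (0 : K)) = a • p + b • d := by
  obtain ⟨P, s⟩ := p
  obtain ⟨D, t⟩ := d
  obtain ⟨v1, v2⟩ := v
  simp only at hv
  have hβ1' : 1 - β ≠ 0 := sub_ne_zero.2 hβ1.symm
  unfold InA at h1 h2 h3
  simp only [Prod.fst_add, Prod.snd_add, Prod.smul_fst, Prod.smul_snd, smul_eq_mul] at h1 h2 h3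
  by_cases hs : s = 0
  · subst hs
    by_cases ht : t = 0
    · subst ht
      -- two independent vectors of the plane
      have hdet : P.1 * D.2 - P.2 * D.1 ≠ 0 := by
        intro h0
        have hP : P = 0 := by
          have ha := hpd D.2 (-P.2) (by
            refine Prod.ext (Prod.ext ?_ ?_) ?_
            · simp; linear_combination h0
            · simp; ring
            · simp)
          have hb := hpd D.1 (-P.1) (by
            refine Prod.ext (Prod.ext ?_ ?_) ?_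
            · simp; ring
            · simp; linear_combination -h0
            · simp)
          refine Prod.ext ?_ ?_
          · simpa using hb.2
          · simpa using ha.2
        have := hpd 1 0 (by rw [hP]; simp)
        exact one_ne_zero this.1
      obtain ⟨Δ, hΔ⟩ : ∃ Δ, Δ = P.1 * D.2 - P.2 * D.1 := ⟨_, rfl⟩
      rw [← hΔ] at hdet
      refine ⟨(w.1 * D.2 - w.2 * D.1) / Δ, (w.2 * P.1 - w.1 * P.2) / Δ, ?_⟩
      refine Prod.ext (Prod.ext ?_ ?_) ?_
      · simp only [Prod.fst_add, Prod.smul_fst, smul_eq_mul]; field_simp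
        linear_combination w.1 * hΔ
      · simp only [Prod.fst_add, Prod.snd_add, Prod.smul_fst, Prod.smul_snd, smul_eq_mul]; field_simp
        linear_combination w.2 * hΔ
      · simp
    · exfalso
      rcases h2 with h2 | h2
      swap
      · exact ht (by simpa using h2.1)
      rcases h3 with h3 | h3
      swap
      · exact mul_ne_zero hβ0 ht (by simpa using h3.1)
      rcases h1 with h1 | h1
      · exact h1.1 rfl
      have h4 := U.sub_mem h2.2 h3.2
      have h5 : (v2 / t * (1 - β⁻¹)) • P ∈ U := by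
        convert h4 using 1
        refine Prod.ext ?_ ?_
        · simp; field_simp; ring
        · simp; field_simp; ring
      have h6 := h1.2 _ h5
      rcases mul_eq_zero.1 h6 with h7 | h7
      · rcases div_eq_zero_iff.1 h7 with h8 | h8
        · exact hv h8
        · exact ht h8
      · apply hβ1
        have : β⁻¹ = 1 := (sub_eq_zero.1 h7).symm
        simpa using this
  · rcases h1 with h1 | h1
    swap
    · exact absurd h1.1 hs
    by_cases hst : s + t = 0
    · exfalso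
      rcases h2 with h2 | h2
      · exact h2.1 hst
      have ht : t = - s := by linear_combination hst
      subst ht
      have hN : s + β * (-s) = s * (1 - β) := by ring
      rw [hN] at h3
      have hsb : s * (1 - β) ≠ 0 := mul_ne_zero hs hβ1'
      rcases h3 with h3 | h3
      swap
      · exact hsb h3.1
      have h4 := U.sub_mem h3.2 h1.2
      have h5 : (v2 * β / (s * (1 - β))) • (P + D) ∈ U := by
        convert h4 using 1
        refine Prod.ext ?_ ?_
        · simp only [Prod.fst_sub, Prod.fst_add, Prod.smul_fst, smul_eq_mul]; field_simp; ring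
        · simp only [Prod.snd_sub, Prod.snd_add, Prod.smul_snd, smul_eq_mul]; field_simp; ring
      have h6 := h2.2 _ h5
      exact (div_ne_zero (mul_ne_zero hv hβ0) (mul_ne_zero hs hβ1')) h6
    · rcases h2 with h2 | h2
      swap
      · exact absurd h2.1 hst
      by_cases hsb : s + β * t = 0
      · exfalso
        rcases h3 with h3 | h3
        · exact h3.1 hsb
        have hs' : s = - (β * t) := by linear_combination hsb
        have ht0 : t ≠ 0 := by rintro rfl; apply hs; rw [hs']; ring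
        have h4 := U.sub_mem h1.2 h2.2
        have h5 : (v2 * t / (s * (s + t))) • (P + β • D) ∈ U := by
          convert h4 using 1
          refine Prod.ext ?_ ?_
          · simp only [Prod.fst_sub, Prod.fst_add, Prod.smul_fst, smul_eq_mul]; field_simp
            linear_combination (v2 * D.1) * hsb
          · simp only [Prod.snd_sub, Prod.snd_add, Prod.smul_snd, smul_eq_mul]; field_simp
            linear_combination (v2 * D.2) * hsb
        have h6 := h3.2 _ h5
        exact (div_ne_zero (mul_ne_zero hv ht0) (mul_ne_zero hs hst)) h6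
      · rcases h3 with h3 | h3
        swap
        · exact absurd h3.1 hsb
        have h4 := U.sub_mem h1.2 h2.2
        have h5 := U.sub_mem h1.2 h3.2
        set q : K × K := (v2 / (s * (s + t))) • (t • P - s • D) with hq
        have e4 : (v2 / s) • P - v1 - ((v2 / (s + t)) • (P + D) - v1) = q := by
          rw [hq]
          refine Prod.ext ?_ ?_
          · simp only [Prod.fst_sub, Prod.fst_add, Prod.smul_fst, smul_eq_mul]; field_simp; ring
          · simp only [Prod.snd_sub, Prod.snd_add, Prod.smul_snd, smul_eq_mul]; field_simp; ring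
        have e5 : (v2 / s) • P - v1 - ((v2 / (s + β * t)) • (P + β • D) - v1) =
            (β * (s + t) / (s + β * t)) • q := by
          rw [hq]
          refine Prod.ext ?_ ?_
          · simp only [Prod.fst_sub, Prod.fst_add, Prod.smul_fst, smul_eq_mul]; field_simp; ring
          · simp only [Prod.snd_sub, Prod.snd_add, Prod.smul_snd, smul_eq_mul]; field_simp; ring
        rw [e4] at h4
        rw [e5] at h5
        have hq0 : q ≠ 0 := by
          intro h0
          rw [hq, smul_eq_zero] at h0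
          rcases h0 with h0 | h0
          · exact (div_ne_zero hv (mul_ne_zero hs hst)) h0
          · have := hpd t (-s) (by
              refine Prod.ext ?_ ?_
              · simp only [Prod.fst_add, Prod.smul_fst]
                rw [neg_smul, ← sub_eq_add_neg]; exact h0
              · simp; ring)
            exact hs (by simpa using this.2)
        rcases hw q h4 hq0 _ h5 with h6 | h6 | ⟨e, he⟩
        · exfalso
          exact (div_ne_zero (mul_ne_zero hβ0 hst) hsb) h6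
        · exfalso
          rw [div_eq_one_iff_eq hsb] at h6
          have : s * (1 - β) = 0 := by linear_combination -h6
          exact mul_ne_zero hs hβ1' this
        · have he0 : e ≠ 0 := by rintro rfl; exact hq0 (by rw [he, zero_smul])
          refine ⟨e⁻¹ * (v2 / (s * (s + t)) * t), e⁻¹ * (v2 / (s * (s + t)) * (-s)), ?_⟩
          have h7 : w = e⁻¹ • q := by rw [he, smul_smul, inv_mul_cancel₀ he0, one_smul]
          refine Prod.ext ?_ ?_
          · rw [h7, hq]
            simp only [Prod.fst_add, Prod.smul_fst]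
            rw [smul_smul, smul_sub, smul_smul, smul_smul]
            rw [show e⁻¹ * (v2 / (s * (s + t)) * (-s)) = - (e⁻¹ * (v2 / (s * (s + t))) * s) by ring,
              neg_smul, ← sub_eq_add_neg]
            congr 2
            ring
          · simp; ring

/-- there is a point of the arc on the line -/
theorem lemZ [Finite K] (U : AddSubgroup (K × K)) (hU : Nat.card U = Nat.card K) :
    ∃ z : K × K, z ≠ 0 ∧ ∀ c : K, c • z ∈ U → c = 0 := by
  by_contra hcon
  push Not at hcon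
  have h1 : ∀ y : K, ∃ c : K, c • ((1 : K), y) ∈ U ∧ c ≠ 0 := fun y =>
    hcon (1, y) (by simp)
  choose c hc hc0 using h1
  let F : K → U := fun y => ⟨c y • ((1 : K), y), hc y⟩
  have hF : Function.Injective F := by
    intro y y' h
    have h2 : c y • ((1 : K), y) = c y' • ((1 : K), y') := congrArg Subtype.val h
    have h3 : c y = c y' := by simpa using congrArg Prod.fst h2
    have h4 : c y * y = c y' * y' := by simpa using congrArg Prod.snd h2
    rw [← h3] at h4
    exact mul_left_cancel₀ (hc0 y) h4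
  have hFb : Function.Bijective F := (Nat.bijective_iff_injective_and_card F).2 ⟨hF, hU.symm⟩
  obtain ⟨y, hy⟩ := hFb.2 0
  have : c y • ((1 : K), y) = 0 := congrArg Subtype.val hy
  exact hc0 y (by simpa using congrArg Prod.fst this)

theorem span2 {w u : K × K} (hw : w ≠ 0) (hu : ∀ e : K, u ≠ e • w) (z : K × K) :
    ∃ a b : K, z = a • w + b • u := by
  obtain ⟨Δ, hΔ⟩ : ∃ Δ, Δ = w.1 * u.2 - w.2 * u.1 := ⟨_, rfl⟩
  have hΔ0 : Δ ≠ 0 := by
    intro h0
    rw [h0] at hΔ
    by_cases h1 : w.1 = 0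
    · have h2 : w.2 ≠ 0 := by
        intro h2; exact hw (Prod.ext h1 h2)
      refine hu (u.2 / w.2) (Prod.ext ?_ ?_)
      · simp only [Prod.smul_fst, smul_eq_mul]; field_simp
        linear_combination hΔ
      · simp only [Prod.smul_snd, smul_eq_mul]; field_simp
    · refine hu (u.1 / w.1) (Prod.ext ?_ ?_)
      · simp only [Prod.smul_fst, smul_eq_mul]; field_simp
      · simp only [Prod.smul_snd, smul_eq_mul]; field_simp
        linear_combination -hΔ
  refine ⟨(z.1 * u.2 - z.2 * u.1) / Δ, (z.2 * w.1 - z.1 * w.2) / Δ, Prod.ext ?_ ?_⟩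
  · simp only [Prod.fst_add, Prod.smul_fst, smul_eq_mul]; field_simp
    linear_combination z.1 * hΔ
  · simp only [Prod.snd_add, Prod.smul_snd, smul_eq_mul]; field_simp
    linear_combination z.2 * hΔ

theorem inA_add {U : AddSubgroup (K × K)} {v : (K × K) × K} (hv : v.2 ≠ 0) {u : K × K}
    (hu : u ∈ U) : InA U v (v + (u, 0)) := by
  left
  refine ⟨by simpa using hv, ?_⟩
  simp [div_self hv, hu]

theorem head {U₁ U₂ : AddSubgroup (K × K)} {v₁ v₂ : (K × K) × K} {σ : K ≃+* K}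
    {f : ((K × K) × K) ≃+ ((K × K) × K)} (h : Good U₁ v₁ U₂ v₂ σ f) (hv₁ : v₁.2 ≠ 0)
    (hv₂ : v₂.2 ≠ 0) {w₁ w₂ u : K × K} {α : K} (hw₁U : w₁ ∈ U₁) (hw₁0 : w₁ ≠ 0)
    (hα : α • w₁ ∈ U₁) (hα0 : α ≠ 0) (hα1 : α ≠ 1) (hu : u ∈ U₁) (huw : ∀ e : K, u ≠ e • w₁)
    (hw₂0 : w₂ ≠ 0)
    (hw₂ : ∀ q ∈ U₂, q ≠ 0 → ∀ c : K, c • q ∈ U₂ → c = 0 ∨ c = 1 ∨ ∃ e : K, q = e • w₂) :
    ∃ b : K, b ≠ 0 ∧ (w₂, (0 : K)) = b • f (w₁, 0) := by
  have hlin : ∀ (a b : K) (x y : (K × K) × K), a • f x + b • f y =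
      f (σ.symm a • x + σ.symm b • y) := by
    intro a b x y
    rw [map_add, h.semi, h.semi]; simp
  have step : ∀ u' ∈ U₁, ∃ a b : K, (w₂, (0 : K)) = a • f (v₁ + (u', 0)) + b • f (w₁, 0) := by
    intro u' hu'
    have hne : ∀ z : K × K, (v₁ + (z, 0) : (K × K) × K) ≠ 0 := by
      intro z h0; exact hv₁ (by simpa using congrArg Prod.snd h0)
    refine lemB hv₂ hw₂ ?_ (β := σ α) (by simpa using hα0) (by simpa using hα1) ?_ ?_ ?_
    · intro a b hab
      rw [hlin] at hab
      have h0 : σ.symm a • (v₁ + (u', 0)) + σ.symm b • ((w₁, 0) : (K × K) × K) = 0 :=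
        (map_eq_zero_iff f f.injective).1 hab
      have h2 : σ.symm a * v₁.2 = 0 := by simpa using congrArg Prod.snd h0
      have ha : σ.symm a = 0 := (mul_eq_zero.1 h2).resolve_right hv₁
      rw [ha, zero_smul, zero_add] at h0
      have hb : σ.symm b • w₁ = 0 := congrArg Prod.fst h0
      have hb' : σ.symm b = 0 := (smul_eq_zero.1 hb).resolve_right hw₁0
      exact ⟨by simpa using ha, by simpa using hb'⟩
    · exact (h.arc _ (hne _)).1 (inA_add hv₁ hu')
    · rw [← map_add]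
      have : (v₁ + (u', 0) + (w₁, 0) : (K × K) × K) = v₁ + (u' + w₁, 0) := by
        rw [add_assoc]; simp
      rw [this]
      exact (h.arc _ (hne _)).1 (inA_add hv₁ (U₁.add_mem hu' hw₁U))
    · rw [← h.semi, ← map_add]
      have : (v₁ + (u', 0) + α • (w₁, 0) : (K × K) × K) = v₁ + (u' + α • w₁, 0) := by
        rw [add_assoc]; simp
      rw [this]
      exact (h.arc _ (hne _)).1 (inA_add hv₁ (U₁.add_mem hu' hα))
  obtain ⟨a, b, hab⟩ := step 0 U₁.zero_mem
  obtain ⟨a', b', hab'⟩ := step u hu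
  have h1 : σ.symm a • (v₁ + (0, 0)) + σ.symm b • ((w₁, 0) : (K × K) × K) =
      σ.symm a' • (v₁ + (u, 0)) + σ.symm b' • ((w₁, 0) : (K × K) × K) := by
    apply f.injective
    rw [← hlin, ← hlin, ← hab', ← hab]
  have h2 : σ.symm a * v₁.2 = σ.symm a' * v₁.2 := by simpa using congrArg Prod.snd h1
  have h3 : σ.symm a = σ.symm a' := mul_right_cancel₀ hv₁ h2
  have h4 : σ.symm a • v₁.1 + σ.symm b • w₁ = σ.symm a' • (v₁.1 + u) + σ.symm b' • w₁ := by
    simpa using congrArg Prod.fst h1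
  have ha' : σ.symm a' = 0 := by
    by_contra hne
    apply huw ((σ.symm a')⁻¹ * (σ.symm b - σ.symm b'))
    rw [mul_smul, sub_smul]
    have : σ.symm b • w₁ - σ.symm b' • w₁ = σ.symm a' • u := by
      rw [h3, smul_add] at h4
      have h5 : σ.symm b • w₁ = σ.symm a' • u + σ.symm b' • w₁ := by
        have := add_left_cancel (h4.trans (add_assoc _ _ _))
        exact this
      rw [h5]; abel
    rw [this, smul_smul, inv_mul_cancel₀ hne, one_smul]
  have ha : a = 0 := by
    rw [ha'] at h3; simpa using h3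
  rw [ha, zero_smul, zero_add] at hab
  refine ⟨b, ?_, hab⟩
  rintro rfl
  rw [zero_smul] at hab
  exact hw₂0 (congrArg Prod.fst hab)

theorem main_vec [Finite K] {U₁ U₂ : AddSubgroup (K × K)} {v₁ v₂ : (K × K) × K} {σ : K ≃+* K}
    {f : ((K × K) × K) ≃+ ((K × K) × K)} (h : Good U₁ v₁ U₂ v₂ σ f) (hv₁ : v₁.2 ≠ 0)
    (hv₂ : v₂.2 ≠ 0) (hc₁ : Nat.card U₁ = Nat.card K) (hc₂ : Nat.card U₂ = Nat.card K)
    {w₁ w₂ u₁ u₂ : K × K} {α : K} (hw₁U : w₁ ∈ U₁) (hw₁0 : w₁ ≠ 0)
    (hα : α • w₁ ∈ U₁) (hα0 : α ≠ 0) (hα1 : α ≠ 1) (hu₁ : u₁ ∈ U₁) (huw₁ : ∀ e : K, u₁ ≠ e • w₁)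
    (hw₂U : w₂ ∈ U₂) (hw₂0 : w₂ ≠ 0)
    (hw₂ : ∀ q ∈ U₂, q ≠ 0 → ∀ c : K, c • q ∈ U₂ → c = 0 ∨ c = 1 ∨ ∃ e : K, q = e • w₂)
    (hu₂ : u₂ ∈ U₂) (huw₂ : ∀ e : K, u₂ ≠ e • w₂) : GammaLEquiv U₁ U₂ := by
  obtain ⟨b, hb0, hb⟩ := head h hv₁ hv₂ hw₁U hw₁0 hα hα0 hα1 hu₁ huw₁ hw₂0 hw₂
  obtain ⟨z₁, hz₁0, hz₁⟩ := lemZ U₁ hc₁
  obtain ⟨z₂, hz₂0, hz₂⟩ := lemZ U₂ hc₂
  have hcc : Nat.card U₁ = Nat.card U₂ := hc₁.trans hc₂.symm
  -- `f (w₁,0)` and its inverse
  have hfw : f (w₁, 0) = b⁻¹ • (w₂, (0 : K)) := by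
    rw [hb, smul_smul, inv_mul_cancel₀ hb0, one_smul]
  have hzw₁ : ∀ e : K, z₁ ≠ e • w₁ := by
    intro e he
    by_cases he0 : e = 0
    · exact hz₁0 (by rw [he, he0, zero_smul])
    · have := hz₁ e⁻¹ (by rw [he, smul_smul, inv_mul_cancel₀ he0, one_smul]; exact hw₁U)
      exact inv_ne_zero he0 this
  have hzw₂ : ∀ e : K, z₂ ≠ e • w₂ := by
    intro e he
    by_cases he0 : e = 0
    · exact hz₂0 (by rw [he, he0, zero_smul])
    · have := hz₂ e⁻¹ (by rw [he, smul_smul, inv_mul_cancel₀ he0, one_smul]; exact hw₂U)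
      exact inv_ne_zero he0 this
  have inAz : ∀ (U : AddSubgroup (K × K)) (v : (K × K) × K) (z : K × K),
      (∀ c : K, c • z ∈ U → c = 0) → InA U v (z, 0) := fun U v z hz => Or.inr ⟨rfl, hz⟩
  have hpair : ∀ z : K × K, z ≠ 0 → ((z, (0 : K)) : (K × K) × K) ≠ 0 := by
    intro z hz h0; exact hz (congrArg Prod.fst h0)
  -- criterion for preserving the line
  have crit : ∀ {U₁ U₂ : AddSubgroup (K × K)} {v₁ v₂ : (K × K) × K} {σ : K ≃+* K}
      {f : ((K × K) × K) ≃+ ((K × K) × K)}, Good U₁ v₁ U₂ v₂ σ f → ∀ {w z : K × K}, w ≠ 0 →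
      (∀ e : K, z ≠ e • w) → (f (w, 0)).2 = 0 → (f (z, 0)).2 = 0 → ∀ x : K × K, (f (x, 0)).2 = 0 := by
    intro U₁ U₂ v₁ v₂ σ f h w z hw hz h1 h2 x
    obtain ⟨a, b, rfl⟩ := span2 hw hz x
    have : ((a • w + b • z, (0 : K)) : (K × K) × K) = a • (w, 0) + b • (z, 0) := by
      refine Prod.ext rfl ?_; simp
    rw [this, map_add, h.semi, h.semi]
    simp [h1, h2]
  by_cases hx1 : (f (z₁, 0)).2 = 0
  · exact lemA h hv₁ hv₂ hcc (crit h hw₁0 hzw₁ (by rw [hfw]; simp) hx1)
  by_cases hy2 : (f.symm (z₂, 0)).2 = 0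
  · refine (lemA h.symm hv₂ hv₁ hcc.symm (crit h.symm hw₂0 hzw₂ ?_ hy2)).symm
    rw [hb, h.symm.semi]
    simp
  -- the other points
  have hA1 := (h.arc _ (hpair _ hz₁0)).1 (inAz U₁ v₁ z₁ hz₁)
  have hA2 := (h.symm.arc _ (hpair _ hz₂0)).1 (inAz U₂ v₂ z₂ hz₂)
  obtain ⟨x₁, hx₁⟩ : ∃ x, x = f (z₁, 0) := ⟨_, rfl⟩
  obtain ⟨y₂, hy₂⟩ : ∃ y, y = f.symm (z₂, 0) := ⟨_, rfl⟩
  rw [← hx₁] at hx1 hA1
  rw [← hy₂] at hy2 hA2
  have hA1' : (v₂.2 / x₁.2) • x₁.1 - v₂.1 ∈ U₂ := by
    rcases hA1 with h | h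
    · exact h.2
    · exact absurd h.1 hx1
  have hA2' : (v₁.2 / y₂.2) • y₂.1 - v₁.1 ∈ U₁ := by
    rcases hA2 with h | h
    · exact h.2
    · exact absurd h.1 hy2
  set u₀ := (v₂.2 / x₁.2) • x₁.1 - v₂.1 with hu₀
  set a := (v₁.2 / y₂.2) • y₂.1 - v₁.1 with ha
  have ex1 : x₁ = (x₁.2 / v₂.2) • (v₂ + (u₀, 0)) := by
    refine Prod.ext ?_ ?_
    · simp only [Prod.smul_fst, Prod.fst_add]
      rw [hu₀, add_sub_cancel, smul_smul]
      rw [show x₁.2 / v₂.2 * (v₂.2 / x₁.2) = 1 by field_simp, one_smul]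
    · simp only [Prod.smul_snd, Prod.snd_add, smul_eq_mul, add_zero]; field_simp
  have ey2 : y₂ = (y₂.2 / v₁.2) • (v₁ + (a, 0)) := by
    refine Prod.ext ?_ ?_
    · simp only [Prod.smul_fst, Prod.fst_add]
      rw [ha, add_sub_cancel, smul_smul]
      rw [show y₂.2 / v₁.2 * (v₁.2 / y₂.2) = 1 by field_simp, one_smul]
    · simp only [Prod.smul_snd, Prod.snd_add, smul_eq_mul, add_zero]; field_simp
  obtain ⟨x₂, hx₂⟩ : ∃ x : (K × K) × K, x = v₂ + (u₀ + u₂, 0) := ⟨_, rfl⟩
  have hx₂A : InA U₂ v₂ x₂ := by rw [hx₂]; exact inA_add hv₂ (U₂.add_mem hA1' hu₂)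
  have hx₂2 : x₂.2 = v₂.2 := by rw [hx₂]; simp
  have hx₂0 : x₂ ≠ 0 := by intro h0; rw [h0] at hx₂2; exact hv₂ hx₂2.symm
  obtain ⟨y₃, hy₃⟩ : ∃ y, y = f.symm x₂ := ⟨_, rfl⟩
  have hy₃A : InA U₁ v₁ y₃ := by rw [hy₃]; exact (h.symm.arc _ hx₂0).1 hx₂A
  have hfy₃ : f y₃ = x₂ := by rw [hy₃]; simp
  have hy₃2 : y₃.2 ≠ 0 := by
    intro h0
    obtain ⟨a', b', hab⟩ := span2 hw₁0 hzw₁ y₃.1
    have h1 : y₃ = a' • (w₁, 0) + b' • (z₁, 0) := by
      refine Prod.ext ?_ ?_
      · simpa using hab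
      · simpa using h0
    have h2 : x₂ = σ a' • f (w₁, 0) + σ b' • x₁ := by
      rw [← hfy₃, h1, map_add, h.semi, h.semi, hx₁]
    rw [hfw, ex1, hx₂] at h2
    have h3 : v₂.2 = σ b' * (x₁.2 / v₂.2 * v₂.2) := by simpa using congrArg Prod.snd h2
    have h4 : σ b' * (x₁.2 / v₂.2) = 1 := by
      have : (σ b' * (x₁.2 / v₂.2)) * v₂.2 = 1 * v₂.2 := by rw [one_mul]; linear_combination -h3
      exact mul_right_cancel₀ hv₂ this
    have h5 : v₂.1 + (u₀ + u₂) = σ a' • b⁻¹ • w₂ + σ b' • (x₁.2 / v₂.2) • (v₂.1 + u₀) := by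
      simpa using congrArg Prod.fst h2
    rw [smul_smul (σ b'), h4, one_smul] at h5
    have h6 : u₂ = (σ a' * b⁻¹) • w₂ := by
      rw [mul_smul]
      have : (v₂.1 + u₀) + u₂ = (v₂.1 + u₀) + σ a' • b⁻¹ • w₂ := by
        rw [add_assoc, h5, add_comm]
      exact add_left_cancel this
    exact huw₂ _ h6
  have hA3' : (v₁.2 / y₃.2) • y₃.1 - v₁.1 ∈ U₁ := by
    rcases hy₃A with h | h
    · exact h.2
    · exact absurd h.1 hy₃2
  set c := (v₁.2 / y₃.2) • y₃.1 - v₁.1 with hc
  have ey3 : y₃ = (y₃.2 / v₁.2) • (v₁ + (c, 0)) := by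
    refine Prod.ext ?_ ?_
    · simp only [Prod.smul_fst, Prod.fst_add]
      rw [hc, add_sub_cancel, smul_smul]
      rw [show y₃.2 / v₁.2 * (v₁.2 / y₃.2) = 1 by field_simp, one_smul]
    · simp only [Prod.smul_snd, Prod.snd_add, smul_eq_mul, add_zero]; field_simp
  have hτ₂ := good_trl U₂ v₂ hv₂ u₂ hu₂
  have hτ₁ := good_trl U₁ v₁ hv₁ (a - c) (U₁.sub_mem hA2' hA3')
  have hF := (((h.trans hτ₂).trans h.symm).trans hτ₁).trans h
  have t₂ : trl v₂ u₂ x₁ = (x₁.2 / v₂.2) • x₂ := by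
    conv_lhs => rw [ex1, hτ₂.semi]
    congr 1
    change (_, _) = _
    rw [hx₂]
    refine Prod.ext ?_ ?_
    · simp [div_self hv₂, add_assoc]
    · simp
  have t₁ : trl v₁ (a - c) (v₁ + (c, 0)) = v₁ + (a, 0) := by
    change (_, _) = _
    refine Prod.ext ?_ ?_
    · simp [div_self hv₁]
    · simp
  have tw : ∀ (v : (K × K) × K) (u w : K × K), trl v u (w, 0) = (w, 0) := by
    intro v u w
    change (_, _) = _
    simp
  refine lemA hF hv₁ hv₂ hcc (crit hF hw₁0 hzw₁ ?_ ?_)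
  · simp only [AddEquiv.trans_apply]
    rw [hfw, hτ₂.semi, tw, RingEquiv.refl_apply, ← hfw, AddEquiv.symm_apply_apply, tw, hfw]
    simp
  · simp only [AddEquiv.trans_apply]
    rw [← hx₁, t₂, h.symm.semi, ← hy₃, ey3, hτ₁.semi, hτ₁.semi, t₁]
    have e : v₁ + (a, 0) = (y₂.2 / v₁.2)⁻¹ • y₂ := by
      rw [eq_inv_smul_iff₀ (div_ne_zero hy2 hv₁)]; exact ey2.symm
    rw [e, h.semi, h.semi, h.semi, hy₂]
    simp

theorem mem_sub {V : Type} [AddCommGroup V] [Module K V] {w x : V} (hw : w ≠ 0) :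
    x ∈ (Projectivization.mk K w hw).submodule ↔ ∃ c : K, x = c • w := by
  rw [Projectivization.submodule_mk, Submodule.mem_span_singleton]
  exact ⟨fun ⟨c, h⟩ => ⟨c, h.symm⟩, fun ⟨c, h⟩ => ⟨c, h.symm⟩⟩

theorem club_data [Finite K] (U : AddSubgroup (K × K)) (i : ℕ) (h : IsClub U i) :
    ∃ w ∈ U, w ≠ 0 ∧
      (∀ q ∈ U, q ≠ 0 → ∀ c : K, c • q ∈ U → c = 0 ∨ c = 1 ∨ ∃ e : K, q = e • w) ∧
      Nat.card {u : K × K // u ∈ U ∧ ∃ c : K, u = c • w} = 2 ^ i ∧
      ((∃ u ∈ U, ∀ e : K, u ≠ e • w) → ∃ α : K, α • w ∈ U ∧ α ≠ 0 ∧ α ≠ 1) := by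
  classical
  obtain ⟨P, ⟨w, hwU, hw0, hwP⟩, hPi⟩ := h.mem
  have hP : P = Projectivization.mk K w hw0 := by
    induction P using Projectivization.ind with
    | h x hx =>
      rw [mem_sub] at hwP
      obtain ⟨c, hc⟩ := hwP
      rw [Projectivization.mk_eq_mk_iff']
      have hc0 : c ≠ 0 := by rintro rfl; exact hw0 (by rw [hc, zero_smul])
      exact ⟨c⁻¹, by rw [hc, smul_smul, inv_mul_cancel₀ hc0, one_smul]⟩
  subst hP
  have hcard : Nat.card {u : K × K // u ∈ U ∧ ∃ c : K, u = c • w} = 2 ^ i := by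
    unfold HasWeight at hPi
    rw [← hPi]
    congr 1
    simp only [mem_sub]
  have hcond : ∀ q ∈ U, q ≠ 0 → ∀ c : K, c • q ∈ U → c = 0 ∨ c = 1 ∨ ∃ e : K, q = e • w := by
    intro q hq hq0 c hc
    by_cases hQ : HasWeight U (Projectivization.mk K q hq0) i
    · right; right
      have := h.unique _ _ hQ hPi
      have h1 : q ∈ (Projectivization.mk K q hq0).submodule := (mem_sub hq0).2 ⟨1, by simp⟩
      rw [this, mem_sub] at h1
      exact h1
    · have h1 := h.other (Projectivization.mk K q hq0)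
        ⟨q, hq, hq0, (mem_sub hq0).2 ⟨1, by simp⟩⟩ hQ
      by_contra hcon
      push Not at hcon
      unfold HasWeight at h1
      rw [pow_one, Nat.card_eq_two_iff] at h1
      obtain ⟨x, y, hxy, hu⟩ := h1
      have hall : ∀ z : {u : K × K // u ∈ U ∧ u ∈ (Projectivization.mk K q hq0).submodule},
          z = x ∨ z = y := by
        intro z
        have : z ∈ ({x, y} : Set {u : K × K // u ∈ U ∧
            u ∈ (Projectivization.mk K q hq0).submodule}) := by rw [hu]; trivial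
        exact this
      have a0 := hall ⟨0, U.zero_mem, Submodule.zero_mem _⟩
      have a1 := hall ⟨q, hq, (mem_sub hq0).2 ⟨1, by simp⟩⟩
      have a2 := hall ⟨c • q, hc, (mem_sub hq0).2 ⟨c, rfl⟩⟩
      have e01 : (0 : K × K) ≠ q := hq0.symm
      have e02 : (0 : K × K) ≠ c • q := (smul_ne_zero hcon.1 hq0).symm
      have e12 : q ≠ c • q := by
        intro h0
        apply hcon.2.1
        have : (1 - c) • q = 0 := by rw [sub_smul, one_smul, sub_eq_zero]; exact h0
        rcases smul_eq_zero.1 this with h | h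
        · exact (sub_eq_zero.1 h).symm
        · exact absurd h hq0
      rcases a0 with a0 | a0 <;> rcases a1 with a1 | a1 <;> rcases a2 with a2 | a2
      · exact e01 (congrArg Subtype.val (a0.trans a1.symm))
      · exact e01 (congrArg Subtype.val (a0.trans a1.symm))
      · exact e02 (congrArg Subtype.val (a0.trans a2.symm))
      · exact e12 (congrArg Subtype.val (a1.trans a2.symm))
      · exact e12 (congrArg Subtype.val (a1.trans a2.symm))
      · exact e02 (congrArg Subtype.val (a0.trans a2.symm))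
      · exact e01 (congrArg Subtype.val (a0.trans a1.symm))
      · exact e01 (congrArg Subtype.val (a0.trans a1.symm))
  refine ⟨w, hwU, hw0, hcond, hcard, ?_⟩
  rintro ⟨u, hu, hue⟩
  have hu0 : u ≠ 0 := by rintro rfl; exact hue 0 (by simp)
  have hi1 : i ≠ 1 := by
    rintro rfl
    have hQ : HasWeight U (Projectivization.mk K u hu0) 1 := by
      by_contra hQ
      exact hQ (h.other (Projectivization.mk K u hu0)
        ⟨u, hu, hu0, (mem_sub hu0).2 ⟨1, by simp⟩⟩ hQ)
    have := h.unique _ _ hQ hPi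
    have h1 : u ∈ (Projectivization.mk K u hu0).submodule := (mem_sub hu0).2 ⟨1, by simp⟩
    rw [this, mem_sub] at h1
    obtain ⟨e, he⟩ := h1
    exact hue e he
  by_contra hcon
  push Not at hcon
  have hle : Nat.card {u : K × K // u ∈ U ∧ ∃ c : K, u = c • w} ≤ 2 := by
    have : Nat.card Bool = 2 := by simp
    rw [← this]
    refine Nat.card_le_card_of_injective
      (fun z : {u : K × K // u ∈ U ∧ ∃ c : K, u = c • w} => decide (z.1 = w)) ?_
    rintro ⟨x, hx, c, rfl⟩ ⟨y, hy, d, rfl⟩ hxy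
    simp only [decide_eq_decide] at hxy
    apply Subtype.ext
    change c • w = d • w
    have hz : ∀ c : K, c • w ∈ U → c • w = 0 ∨ c • w = w := by
      intro c hc
      by_cases hc0 : c = 0
      · left; rw [hc0, zero_smul]
      · right; rw [hcon c hc hc0, one_smul]
    rcases hz c hx with h1 | h1 <;> rcases hz d hy with h2 | h2
    · rw [h1, h2]
    · exact (hxy.2 h2).trans h2.symm
    · exact h1.trans (hxy.1 h1).symm
    · rw [h1, h2]
  have hne : Nat.card {u : K × K // u ∈ U ∧ ∃ c : K, u = c • w} ≠ 1 := by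
    intro h1
    rw [Nat.card_eq_one_iff_unique] at h1
    have := h1.1.elim ⟨0, U.zero_mem, 0, by simp⟩ ⟨w, hwU, 1, by simp⟩
    exact hw0 (congrArg Subtype.val this).symm
  rw [hcard] at hle hne
  have h3 : i = 0 ∨ 2 ≤ i := by omega
  rcases h3 with h3 | h3
  · rw [h3] at hne; exact hne rfl
  · have : 2 ^ 2 ≤ 2 ^ i := Nat.pow_le_pow_right (by norm_num) h3
    omega

/-- a linear automorphism moving `w` to `w'` -/
theorem exists_lin {w w' : K × K} (hw : w ≠ 0) (hw' : w' ≠ 0) :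
    ∃ g : (K × K) ≃+ (K × K), (∀ (c : K) (x : K × K), g (c • x) = c • g x) ∧ g w = w' := by
  have key : ∀ w : K × K, w ≠ 0 → ∃ g : (K × K) ≃+ (K × K),
      (∀ (c : K) (x : K × K), g (c • x) = c • g x) ∧ g (1, 0) = w := by
    intro w hw
    by_cases h1 : w.1 = 0
    · have h2 : w.2 ≠ 0 := fun h2 => hw (Prod.ext h1 h2)
      refine ⟨{ toFun := fun x => (x.2, w.2 * x.1)
                invFun := fun x => (x.2 / w.2, x.1)
                left_inv := fun x => Prod.ext (by simp; field_simp) rfl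
                right_inv := fun x => Prod.ext rfl (by simp; field_simp)
                map_add' := fun x y => Prod.ext rfl (by simp; ring) }, ?_, ?_⟩
      · intro c x; refine Prod.ext ?_ ?_
        · simp
        · simp; ring
      · refine Prod.ext ?_ ?_
        · simp [h1]
        · simp
    · refine ⟨{ toFun := fun x => (w.1 * x.1, w.2 * x.1 + x.2)
                invFun := fun x => (x.1 / w.1, x.2 - w.2 * (x.1 / w.1))
                left_inv := fun x => Prod.ext (by simp; field_simp) (by simp; field_simp; ring)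
                right_inv := fun x => Prod.ext (by simp; field_simp) (by simp)
                map_add' := fun x y => Prod.ext (by simp; ring) (by simp; ring) }, ?_, ?_⟩
      · intro c x; refine Prod.ext ?_ ?_
        · simp; ring
        · simp; ring
      · refine Prod.ext ?_ ?_
        · simp
        · simp
  obtain ⟨g, hg1, hg2⟩ := key w hw
  obtain ⟨g', hg1', hg2'⟩ := key w' hw'
  refine ⟨g.symm.trans g', ?_, ?_⟩
  · intro c x
    simp only [AddEquiv.trans_apply]
    have : g.symm (c • x) = c • g.symm x := by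
      apply g.injective
      rw [hg1]; simp
    rw [this, hg1']
  · simp only [AddEquiv.trans_apply]
    have : g.symm w = (1, 0) := by rw [← hg2]; simp
    rw [this, hg2']

/-- If `U₁`, `U₂` are `ΓL(2, 2 ^ n)`-inequivalent and define `i`-clubs, then for all admissible
`v₁`, `v₂` the KM-arcs `𝒜(U₁, v₁)` and `𝒜(U₂, v₂)` are `PΓL(3, 2 ^ n)`-inequivalent. -/
theorem result (K : Type) [Field K] [Finite K] [CharP K 2] (i : ℕ) (U₁ U₂ : AddSubgroup (K × K))
    (h₁ : IsClub U₁ i) (h₂ : IsClub U₂ i) (v₁ v₂ : (K × K) × K)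
    (hv₁ : v₁ ∉ Submodule.span K ((U₁.prod ⊥ : AddSubgroup ((K × K) × K)) : Set ((K × K) × K)))
    (hv₂ : v₂ ∉ Submodule.span K ((U₂.prod ⊥ : AddSubgroup ((K × K) × K)) : Set ((K × K) × K)))
    (hn : ¬ GammaLEquiv U₁ U₂) : ¬ PGammaLEquiv (arc U₁ v₁) (arc U₂ v₂) := by
  rintro ⟨σ, f, hf1, hf2⟩
  apply hn
  obtain ⟨w₁, hw₁U, hw₁0, hc₁, hn₁, hα₁⟩ := club_data U₁ i h₁
  obtain ⟨w₂, hw₂U, hw₂0, hc₂, hn₂, hα₂⟩ := club_data U₂ i h₂
  have full : ∀ (U : AddSubgroup (K × K)) (w : K × K), w ≠ 0 → Nat.card U = Nat.card K →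
      (∀ u ∈ U, ∃ e : K, u = e • w) → ∀ u, u ∈ U ↔ ∃ e : K, u = e • w := by
    intro U w hw hU hUw u
    refine ⟨hUw u, ?_⟩
    rintro ⟨e, rfl⟩
    choose c hc using hUw
    let F : U → K := fun u => c u.1 u.2
    have hF : Function.Injective F := by
      intro x y hxy
      apply Subtype.ext
      rw [hc x.1 x.2, hc y.1 y.2]
      have : c x.1 x.2 = c y.1 y.2 := hxy
      rw [this]
    have hFb : Function.Bijective F := (Nat.bijective_iff_injective_and_card F).2 ⟨hF, hU⟩
    obtain ⟨⟨x, hx⟩, hxe⟩ := hFb.2 e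
    have h1 : c x hx = e := hxe
    have := hc x hx
    rw [h1] at this
    rw [← this]; exact hx
  have cardw : ∀ (U : AddSubgroup (K × K)) (w : K × K), (∀ u ∈ U, ∃ e : K, u = e • w) ↔
      Nat.card {u : K × K // u ∈ U ∧ ∃ c : K, u = c • w} = Nat.card U := by
    intro U w
    let G : {u : K × K // u ∈ U ∧ ∃ c : K, u = c • w} → U := fun u => ⟨u.1, u.2.1⟩
    have hG : Function.Injective G := by
      intro x y hxy
      have h' : (G x).1 = (G y).1 := by rw [hxy]
      exact Subtype.ext h'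
    constructor
    · intro h
      refine Nat.card_eq_of_bijective G ⟨hG, ?_⟩
      rintro ⟨u, hu⟩
      exact ⟨⟨u, hu, h u hu⟩, rfl⟩
    · intro h u hu
      have hGb : Function.Bijective G := (Nat.bijective_iff_injective_and_card G).2 ⟨hG, h⟩
      obtain ⟨⟨x, hx⟩, hxe⟩ := hGb.2 ⟨u, hu⟩
      have : x = u := congrArg Subtype.val hxe
      rw [← this]; exact hx.2
  by_cases hall : ∀ u ∈ U₁, ∃ e : K, u = e • w₁
  · have hall2 : ∀ u ∈ U₂, ∃ e : K, u = e • w₂ := by
      rw [cardw, hn₂, ← hn₁, (cardw U₁ w₁).1 hall, h₁.rank, h₂.rank]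
    have f1 := full U₁ w₁ hw₁0 h₁.rank hall
    have f2 := full U₂ w₂ hw₂0 h₂.rank hall2
    obtain ⟨g, hg1, hg2⟩ := exists_lin hw₁0 hw₂0
    refine ⟨RingEquiv.refl K, g, fun c x => by simpa using hg1 c x, fun x => ?_⟩
    rw [f1, f2]
    constructor
    · rintro ⟨e, rfl⟩
      exact ⟨e, by rw [hg1, hg2]⟩
    · rintro ⟨e, he⟩
      refine ⟨e, g.injective ?_⟩
      rw [hg1, hg2, he]
  · have hall2 : ¬ ∀ u ∈ U₂, ∃ e : K, u = e • w₂ := by
      rw [cardw, hn₂, ← hn₁, h₂.rank, ← h₁.rank, ← cardw]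
      exact hall
    push Not at hall hall2
    obtain ⟨u₁, hu₁, hue₁⟩ := hall
    obtain ⟨u₂, hu₂, hue₂⟩ := hall2
    obtain ⟨α, hα, hα0, hα1⟩ := hα₁ ⟨u₁, hu₁, hue₁⟩
    have adm : ∀ (U : AddSubgroup (K × K)) (v : (K × K) × K) (w u : K × K), w ∈ U → u ∈ U →
        w ≠ 0 → (∀ e : K, u ≠ e • w) →
        v ∉ Submodule.span K ((U.prod ⊥ : AddSubgroup ((K × K) × K)) : Set ((K × K) × K)) →
        v.2 ≠ 0 := by
      intro U v w u hw hu hw0 hue hv h0
      apply hv
      obtain ⟨a, b, hab⟩ := span2 hw0 hue v.1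
      have : v = a • (w, 0) + b • (u, 0) := by
        refine Prod.ext ?_ ?_
        · simpa using hab
        · simpa using h0
      rw [this]
      refine Submodule.add_mem _ (Submodule.smul_mem _ _ (Submodule.subset_span ?_))
        (Submodule.smul_mem _ _ (Submodule.subset_span ?_))
      · exact AddSubgroup.mem_prod.2 ⟨hw, AddSubgroup.mem_bot.2 rfl⟩
      · exact AddSubgroup.mem_prod.2 ⟨hu, AddSubgroup.mem_bot.2 rfl⟩
    have hv₁' := adm U₁ v₁ w₁ u₁ hw₁U hu₁ hw₁0 hue₁ hv₁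
    have hv₂' := adm U₂ v₂ w₂ u₂ hw₂U hu₂ hw₂0 hue₂ hv₂
    have hG : Good U₁ v₁ U₂ v₂ σ f := by
      refine ⟨hf1, fun x hx => ?_⟩
      rw [← mem_arc U₁ v₁ x hv₁' hx, hf2 x hx, mem_arc U₂ v₂ (f x) hv₂']
    exact main_vec hG hv₁' hv₂' h₁.rank h₂.rank hw₁U hw₁0 hα hα0 hα1 hu₁ hue₁ hw₂U hw₂0 hc₂ hu₂ hue₂

end Pool.Agent.Results.MP_5fce70_co.ClubsToArcs
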